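import Pool.Agent.H95.ILV.Targets

/-!
MP_de9001_an, invariant levels: row CNT, counting pairs of close levels.
-/

set_option autoImplicit false

open MeasureTheory AddCircle Filter Topology

namespace Pool.Agent.H48.ILV

open Pool.Agent.H87.Synth Pool.Agent.H23.Synth Pool.Agent.H95.ILV

/-- length of a cell -/
noncomputable def len (S ψ j : ℕ) : ℝ := 2 ^ (S + j / ψ) / ψ

theorem len_pos (S ψ j : ℕ) (hψ : 1 ≤ ψ) : 0 < len S ψ j := by
  unfold len
  have : (0 : ℝ) < ψ := by exact_mod_cast hψ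
  positivity

theorem cl_succ (S ψ j : ℕ) (hψ : 1 ≤ ψ) : cl S ψ (j + 1) = cl S ψ j + len S ψ j := by
  have hψ' : (0 : ℝ) < ψ := by exact_mod_cast hψ
  have hlt : j % ψ < ψ := Nat.mod_lt _ hψ
  have hj : ψ * (j / ψ) + j % ψ = j := Nat.div_add_mod j ψ
  unfold cl len
  by_cases h : j % ψ + 1 < ψ
  · have h1 : (j + 1) / ψ = j / ψ := by
      have hm : ψ * (j / ψ) = j / ψ * ψ := mul_comm _ _
      rw [Nat.div_eq_iff hψ]
      omega
    have h2 : (j + 1) % ψ = j % ψ + 1 := by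
      have h3 : ψ * ((j + 1) / ψ) + (j + 1) % ψ = j + 1 := Nat.div_add_mod (j + 1) ψ
      rw [h1] at h3
      omega
    rw [h1, h2]
    push_cast
    field_simp
    ring
  · have h0 : j % ψ + 1 = ψ := by omega
    have h1 : (j + 1) / ψ = j / ψ + 1 := by
      have h3 : j + 1 = ψ * (j / ψ + 1) := by
        rw [mul_add, mul_one]
        omega
      rw [h3]
      exact Nat.mul_div_cancel_left _ hψ
    have h2 : (j + 1) % ψ = 0 := by
      have h3 : ψ * ((j + 1) / ψ) + (j + 1) % ψ = j + 1 := Nat.div_add_mod (j + 1) ψ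
      rw [h1, mul_add, mul_one] at h3
      omega
    rw [h1, h2]
    have h4 : ((j % ψ : ℕ) : ℝ) = (ψ : ℝ) - 1 := by
      have : ((j % ψ : ℕ) : ℝ) + 1 = ψ := by exact_mod_cast h0
      linarith only [this]
    rw [h4]
    push_cast
    rw [← add_assoc, pow_succ]
    field_simp
    ring

theorem len_mono (S ψ : ℕ) (hψ : 1 ≤ ψ) {i j : ℕ} (h : i ≤ j) : len S ψ i ≤ len S ψ j := by
  unfold len
  have hψ' : (0 : ℝ) < ψ := by exact_mod_cast hψ
  have h1 : i / ψ ≤ j / ψ := Nat.div_le_div_right h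
  have h2 : (2 : ℝ) ^ (S + i / ψ) ≤ 2 ^ (S + j / ψ) :=
    pow_le_pow_right₀ (by norm_num) (by omega)
  exact div_le_div_of_nonneg_right h2 hψ'.le

theorem cl_add (S ψ : ℕ) (hψ : 1 ≤ ψ) (i m : ℕ) :
    cl S ψ (i + 1) + m * len S ψ i ≤ cl S ψ (i + 1 + m) := by
  induction m with
  | zero => simp
  | succ m ih =>
    rw [← add_assoc, cl_succ S ψ (i + 1 + m) hψ]
    have h1 := len_mono S ψ hψ (show i ≤ i + 1 + m by omega)
    push_cast
    nlinarith only [ih, h1]

theorem cl_le (S ψ i : ℕ) (hψ : 1 ≤ ψ) : cl S ψ (i + 1) ≤ 2 ^ (S + i / ψ + 1) := by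
  rw [cl_succ S ψ i hψ]
  unfold cl len
  have hψ' : (0 : ℝ) < ψ := by exact_mod_cast hψ
  have hlt : i % ψ < ψ := Nat.mod_lt _ hψ
  have h4 : ((i % ψ : ℕ) : ℝ) + 1 ≤ ψ := by exact_mod_cast hlt
  have h5 : ((i % ψ : ℕ) : ℝ) / ψ + 1 / ψ ≤ 1 := by
    rw [← add_div, div_le_one hψ']
    exact h4
  have h6 : (0 : ℝ) < 2 ^ (S + i / ψ) := by positivity
  have h7 : (2 : ℝ) ^ (S + i / ψ) * (1 + ((i % ψ : ℕ) : ℝ) / ψ) + 2 ^ (S + i / ψ) / ψ =
      2 ^ (S + i / ψ) * (1 + (((i % ψ : ℕ) : ℝ) / ψ + 1 / ψ)) := by ring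
  rw [h7, pow_succ]
  exact mul_le_mul_of_nonneg_left (by linarith only [h5]) h6.le

/-- the geometric terms -/
noncomputable def gt (S t s : ℕ) : ℝ := if t ≤ S + s + 1 then (2 : ℝ) ^ t / 2 ^ (S + s) else 0

theorem gt_nonneg (S t s : ℕ) : 0 ≤ gt S t s := by
  unfold gt
  split_ifs
  · positivity
  · exact le_rfl

theorem gt_le (S t s : ℕ) : gt S t s ≤ 2 := by
  unfold gt
  split_ifs with h
  · rw [div_le_iff₀ (by positivity)]
    calc (2 : ℝ) ^ t ≤ 2 ^ (S + s + 1) := pow_le_pow_right₀ (by norm_num) h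
      _ = 2 * 2 ^ (S + s) := by rw [pow_succ]; ring
  · norm_num

theorem gt_sum (S t R : ℕ) : ∑ s ∈ Finset.range R, gt S t s + 2 * gt S t R ≤ 4 := by
  induction R with
  | zero =>
    have := gt_le S t 0
    simp only [Finset.range_zero, Finset.sum_empty]
    linarith only [this]
  | succ R ih =>
    by_cases h : t ≤ S + R + 1
    · rw [Finset.sum_range_succ]
      have h1 : gt S t (R + 1) = gt S t R / 2 := by
        unfold gt
        rw [if_pos h, if_pos (by omega), ← add_assoc, pow_succ]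
        field_simp
      rw [h1]
      linarith only [ih]
    · have h1 : ∑ s ∈ Finset.range (R + 1), gt S t s = 0 := by
        refine Finset.sum_eq_zero fun s hs => ?_
        have hs' := Finset.mem_range.mp hs
        unfold gt
        rw [if_neg (by omega)]
      rw [h1]
      have := gt_le S t (R + 1)
      linarith only [this]

theorem sum_div (h : ℕ → ℝ) (ψ : ℕ) (hψ : 1 ≤ ψ) (R : ℕ) :
    ∑ i ∈ Finset.range (R * ψ), h (i / ψ) = ψ * ∑ s ∈ Finset.range R, h s := by
  induction R with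
  | zero => simp
  | succ R ih =>
    rw [Nat.succ_mul, Finset.sum_range_add, ih, Finset.sum_range_succ, mul_add]
    congr 1
    have h1 : ∀ x ∈ Finset.range ψ, h ((R * ψ + x) / ψ) = h R := by
      intro x hx
      have hx' := Finset.mem_range.mp hx
      have h2 : (R * ψ + x) / ψ = R := by
        rw [Nat.add_comm, Nat.add_mul_div_right _ _ hψ, Nat.div_eq_of_lt hx', zero_add]
      rw [h2]
    rw [Finset.sum_congr rfl h1, Finset.sum_const, Finset.card_range, nsmul_eq_mul]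

/-- the condition -/
def cond (t : ℕ) (lam : ℕ → ℕ) (i j : ℕ) : Prop :=
  2 ^ t ≤ lam i ∧ 2 ^ t ≤ lam j ∧ |(lam i : ℤ) - lam j| < 2 ^ t

theorem row_bound (S R ψ : ℕ) (lam : ℕ → ℕ) (hψ : 1 ≤ ψ)
    (hl : ∀ j < R * ψ, cl S ψ j < lam j ∧ (lam j : ℝ) ≤ cl S ψ (j + 1)) (t i : ℕ)
    (hi : i < R * ψ) (P : ℕ → Prop) [DecidablePred P] (hP : ∀ j, P j → i < j ∧ cond t lam i j) :
    ∑ j ∈ Finset.range (R * ψ), (if P j then (1 : ℝ) else 0) ≤ 1 + ψ * gt S t (i / ψ) := by
  have hψ' : (0 : ℝ) < ψ := by exact_mod_cast hψ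
  rw [← Finset.sum_filter, Finset.sum_const, nsmul_eq_mul, mul_one]
  rcases Finset.eq_empty_or_nonempty ((Finset.range (R * ψ)).filter P) with h0 | ⟨j0, hj0⟩
  · rw [h0]
    simp only [Finset.card_empty, Nat.cast_zero]
    have := gt_nonneg S t (i / ψ)
    positivity
  · have hc := (hP j0 (Finset.mem_filter.mp hj0).2).2.1
    have ht : t ≤ S + i / ψ + 1 := by
      have h1 : (2 : ℝ) ^ t ≤ 2 ^ (S + i / ψ + 1) := by
        calc (2 : ℝ) ^ t ≤ lam i := by exact_mod_cast hc
          _ ≤ cl S ψ (i + 1) := (hl i hi).2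
          _ ≤ _ := cl_le S ψ i hψ
      exact (pow_le_pow_iff_right₀ (by norm_num : (1 : ℝ) < 2)).mp h1
    have hg : gt S t (i / ψ) = (2 : ℝ) ^ t / 2 ^ (S + i / ψ) := by
      unfold gt
      rw [if_pos ht]
    set x : ℝ := ψ * gt S t (i / ψ) with hx
    have hx0 : 0 ≤ x := mul_nonneg hψ'.le (gt_nonneg _ _ _)
    have hsub : (Finset.range (R * ψ)).filter P ⊆ Finset.Ico (i + 1) (i + 1 + ⌈x⌉₊) := by
      intro j hj
      obtain ⟨hj1, hj2⟩ := Finset.mem_filter.mp hj
      obtain ⟨hij, hcc⟩ := hP j hj2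
      have hj1' := Finset.mem_range.mp hj1
      obtain ⟨m, rfl⟩ : ∃ m, j = i + 1 + m := ⟨j - (i + 1), by omega⟩
      have h1 := cl_add S ψ hψ i m
      have h2 := (hl i hi).2
      have h3 := (hl (i + 1 + m) hj1').1
      have h4 : (lam (i + 1 + m) : ℝ) - lam i < 2 ^ t := by
        have h5 := (abs_lt.mp hcc.2.2).1
        have h6 : (lam (i + 1 + m) : ℤ) - lam i < 2 ^ t := by linarith only [h5]
        exact_mod_cast h6
      have h5 : (m : ℝ) * len S ψ i < 2 ^ t := by linarith only [h1, h2, h3, h4]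
      have h6 : (m : ℝ) < x := by
        rw [hx, hg]
        unfold len at h5
        have h7 : (0 : ℝ) < 2 ^ (S + i / ψ) := by positivity
        rw [← mul_div_assoc, lt_div_iff₀ h7]
        rw [← mul_div_assoc, div_lt_iff₀ hψ'] at h5
        linarith only [h5]
      have h7 : m < ⌈x⌉₊ := Nat.lt_ceil.mpr h6
      rw [Finset.mem_Ico]
      omega
    have hcard := Finset.card_le_card hsub
    rw [Nat.card_Ico] at hcard
    have h8 : (((Finset.range (R * ψ)).filter P).card : ℝ) ≤ (⌈x⌉₊ : ℝ) := by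
      exact_mod_cast (by omega : ((Finset.range (R * ψ)).filter P).card ≤ ⌈x⌉₊)
    have h9 := Nat.ceil_lt_add_one hx0
    linarith only [h8, h9]

theorem pf_CNT : T_CNT := by
  classical
  intro S R ψ lam hψ hl t
  have hψ' : (0 : ℝ) < ψ := by exact_mod_cast hψ
  set M := R * ψ with hM
  have h1 : prs M t lam ≤ ∑ i ∈ Finset.range M, ∑ j ∈ Finset.range M,
      ((if i = j then (1 : ℝ) else 0) + ((if i < j ∧ cond t lam i j then (1 : ℝ) else 0) +
        (if j < i ∧ cond t lam j i then (1 : ℝ) else 0))) := by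
    unfold prs
    refine Finset.sum_le_sum fun i _ => Finset.sum_le_sum fun j _ => ?_
    have e1 : (0 : ℝ) ≤ (if i = j then (1 : ℝ) else 0) := by split_ifs <;> norm_num
    have e2 : (0 : ℝ) ≤ (if i < j ∧ cond t lam i j then (1 : ℝ) else 0) := by
      split_ifs <;> norm_num
    have e3 : (0 : ℝ) ≤ (if j < i ∧ cond t lam j i then (1 : ℝ) else 0) := by
      split_ifs <;> norm_num
    by_cases hc : cond t lam i j
    · have e0 : (if 2 ^ t ≤ lam i ∧ 2 ^ t ≤ lam j ∧ |(lam i : ℤ) - lam j| < 2 ^ t then (1 : ℝ)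
        else 0) = 1 := if_pos hc
      rw [e0]
      rcases lt_trichotomy i j with h | h | h
      · have e4 : (if i < j ∧ cond t lam i j then (1 : ℝ) else 0) = 1 := if_pos ⟨h, hc⟩
        linarith only [e1, e3, e4]
      · have e4 : (if i = j then (1 : ℝ) else 0) = 1 := if_pos h
        linarith only [e2, e3, e4]
      · have hc' : cond t lam j i := ⟨hc.2.1, hc.1, by rw [abs_sub_comm]; exact hc.2.2⟩
        have e4 : (if j < i ∧ cond t lam j i then (1 : ℝ) else 0) = 1 := if_pos ⟨h, hc'⟩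
        linarith only [e1, e2, e4]
    · have e0 : (if 2 ^ t ≤ lam i ∧ 2 ^ t ≤ lam j ∧ |(lam i : ℤ) - lam j| < 2 ^ t then (1 : ℝ)
        else 0) = 0 := if_neg hc
      rw [e0]
      linarith only [e1, e2, e3]
  have h2 : ∑ i ∈ Finset.range M, ∑ j ∈ Finset.range M, (if i = j then (1 : ℝ) else 0) = M := by
    have : ∀ i ∈ Finset.range M, ∑ j ∈ Finset.range M, (if i = j then (1 : ℝ) else 0) = 1 := by
      intro i hi
      rw [Finset.sum_ite_eq, if_pos hi]
    rw [Finset.sum_congr rfl this]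
    simp
  have h3 : ∑ i ∈ Finset.range M, ∑ j ∈ Finset.range M,
      (if i < j ∧ cond t lam i j then (1 : ℝ) else 0) ≤ M + 4 * (ψ : ℝ) ^ 2 := by
    calc ∑ i ∈ Finset.range M, ∑ j ∈ Finset.range M,
        (if i < j ∧ cond t lam i j then (1 : ℝ) else 0)
        ≤ ∑ i ∈ Finset.range M, (1 + ψ * gt S t (i / ψ)) := by
          refine Finset.sum_le_sum fun i hi => ?_
          exact row_bound S R ψ lam hψ hl t i (Finset.mem_range.mp hi)
            (fun j => i < j ∧ cond t lam i j) fun j hj => hj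
      _ = M + ψ * (ψ * ∑ s ∈ Finset.range R, gt S t s) := by
          rw [Finset.sum_add_distrib, ← Finset.mul_sum, hM, sum_div (gt S t) ψ hψ R]
          simp
      _ ≤ M + ψ * (ψ * 4) := by
          have h4 := gt_sum S t R
          have h5 := gt_nonneg S t R
          have h6 : ∑ s ∈ Finset.range R, gt S t s ≤ 4 := by linarith only [h4, h5]
          have h7 := mul_le_mul_of_nonneg_left (mul_le_mul_of_nonneg_left h6 hψ'.le) hψ'.le
          linarith only [h7]
      _ = _ := by ring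
  have h4 : ∑ i ∈ Finset.range M, ∑ j ∈ Finset.range M,
      (if j < i ∧ cond t lam j i then (1 : ℝ) else 0) ≤ M + 4 * (ψ : ℝ) ^ 2 := by
    rw [Finset.sum_comm]
    exact h3
  have h5 : ∑ i ∈ Finset.range M, ∑ j ∈ Finset.range M,
      ((if i = j then (1 : ℝ) else 0) + ((if i < j ∧ cond t lam i j then (1 : ℝ) else 0) +
        (if j < i ∧ cond t lam j i then (1 : ℝ) else 0))) =
      ∑ i ∈ Finset.range M, ∑ j ∈ Finset.range M, (if i = j then (1 : ℝ) else 0) +
      (∑ i ∈ Finset.range M, ∑ j ∈ Finset.range M,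
        (if i < j ∧ cond t lam i j then (1 : ℝ) else 0) +
      ∑ i ∈ Finset.range M, ∑ j ∈ Finset.range M,
        (if j < i ∧ cond t lam j i then (1 : ℝ) else 0)) := by
    simp only [Finset.sum_add_distrib]
  rw [h5, h2] at h1
  have h6 : (M : ℝ) = R * ψ := by rw [hM]; push_cast; ring
  rw [h6] at h1 h3 h4
  linarith only [h1, h3, h4]

end Pool.Agent.H48.ILV
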